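import Pool.Agent.H958R6.Stmts

/-! Task `VE` of project H958-KNIGHT: the four Green function values for `n = 2m`. -/

set_option autoImplicit false

namespace H958R6

namespace VEaux

open Polynomial Finset Pool.Agent.Helper848.AztecDet

theorem deg1 (a : ℕ) : ((1 + X : ℚ[X]) ^ a).natDegree ≤ a := by
  have h1 : (1 + X : ℚ[X]).natDegree ≤ 1 := by compute_degree
  simpa using natDegree_pow_le_of_le a h1

theorem deg2 (a : ℕ) : ((1 - X : ℚ[X]) ^ a).natDegree ≤ a := by
  have h1 : (1 - X : ℚ[X]).natDegree ≤ 1 := by compute_degree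
  simpa using natDegree_pow_le_of_le a h1

theorem refl1 (a : ℕ) : reflect a ((1 + X : ℚ[X]) ^ a) = (1 + X) ^ a := by
  induction a with
  | zero => simp
  | succ a ih =>
    rw [pow_succ, reflect_mul _ _ (deg1 a) (show (1 + X : ℚ[X]).natDegree ≤ 1 by compute_degree),
      ih, reflect_add, reflect_one, reflect_one_X, pow_one, add_comm X 1]

theorem refl2 (a : ℕ) : reflect a ((1 - X : ℚ[X]) ^ a) = (-1) ^ a * (1 - X) ^ a := by
  induction a with
  | zero => simp
  | succ a ih =>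
    rw [pow_succ, reflect_mul _ _ (deg2 a) (show (1 - X : ℚ[X]).natDegree ≤ 1 by compute_degree),
      ih, reflect_sub, reflect_one, reflect_one_X, pow_one]
    ring

theorem pal (a b m : ℕ) (hm : 1 ≤ m) (hab : a + b + 1 = 2 * m) :
    ((1 + X) ^ a * (1 - X) ^ b : ℚ[X]).coeff (m - 1) =
      (-1) ^ b * ((1 + X) ^ a * (1 - X) ^ b : ℚ[X]).coeff m := by
  have h1 := reflect_mul _ _ (deg1 a) (deg2 b)
  rw [refl1, refl2] at h1
  have h2 := congrArg (fun p : ℚ[X] => p.coeff m) h1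
  simp only [coeff_reflect] at h2
  rw [revAt_le (by omega : m ≤ a + b), show a + b - m = m - 1 from by omega] at h2
  rw [h2, show ((1 + X) ^ a * ((-1) ^ b * (1 - X) ^ b) : ℚ[X]) =
    C ((-1) ^ b) * ((1 + X) ^ a * (1 - X) ^ b) from by simp; ring, coeff_C_mul]

/-- the central coefficient -/
noncomputable def S (m j : ℕ) : ℚ := ((1 + X) ^ (2 * j) * (1 - X) ^ (2 * (m - j)) : ℚ[X]).coeff m

theorem keyOdd (m j : ℕ) (hj : j < m) :
    ((1 + X) ^ (2 * j) * (1 - X) ^ (2 * m - 1 - 2 * j) : ℚ[X]).coeff (m - 1) =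
      -(1 / 2) * S m j := by
  obtain ⟨m', rfl⟩ : ∃ m', m = m' + 1 := ⟨m - 1, by omega⟩
  have h1 := pal (2 * j) (2 * (m' + 1) - 1 - 2 * j) (m' + 1) (by omega) (by omega)
  have hodd : (-1 : ℚ) ^ (2 * (m' + 1) - 1 - 2 * j) = -1 := by
    rw [show 2 * (m' + 1) - 1 - 2 * j = 2 * (m' - j) + 1 from by omega, pow_succ, pow_mul]
    norm_num
  rw [hodd] at h1
  unfold S
  have h2 : ((1 + X) ^ (2 * j) * (1 - X) ^ (2 * (m' + 1 - j)) : ℚ[X]) =
      ((1 + X) ^ (2 * j) * (1 - X) ^ (2 * (m' + 1) - 1 - 2 * j)) -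
      X * ((1 + X) ^ (2 * j) * (1 - X) ^ (2 * (m' + 1) - 1 - 2 * j)) := by
    rw [show 2 * (m' + 1 - j) = (2 * (m' + 1) - 1 - 2 * j) + 1 from by omega]
    ring
  rw [h2, coeff_sub, coeff_X_mul]
  rw [show m' + 1 - 1 = m' from rfl] at h1 ⊢
  linarith

theorem keyEven (m j : ℕ) (hj0 : 1 ≤ j) (hj : j ≤ m) :
    ((1 + X) ^ (2 * j - 1) * (1 - X) ^ (2 * m - 2 * j) : ℚ[X]).coeff (m - 1) =
      (1 / 2) * S m j := by
  obtain ⟨m', rfl⟩ : ∃ m', m = m' + 1 := ⟨m - 1, by omega⟩
  have h1 := pal (2 * j - 1) (2 * (m' + 1) - 2 * j) (m' + 1) (by omega) (by omega)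
  have hev : (-1 : ℚ) ^ (2 * (m' + 1) - 2 * j) = 1 := by
    rw [show 2 * (m' + 1) - 2 * j = 2 * (m' + 1 - j) from by omega, pow_mul]
    norm_num
  rw [hev, one_mul] at h1
  unfold S
  have h2 : ((1 + X) ^ (2 * j) * (1 - X) ^ (2 * (m' + 1 - j)) : ℚ[X]) =
      ((1 + X) ^ (2 * j - 1) * (1 - X) ^ (2 * (m' + 1) - 2 * j)) +
      X * ((1 + X) ^ (2 * j - 1) * (1 - X) ^ (2 * (m' + 1) - 2 * j)) := by
    rw [show 2 * (m' + 1 - j) = 2 * (m' + 1) - 2 * j from by omega]
    obtain ⟨j', rfl⟩ : ∃ j', j = j' + 1 := ⟨j - 1, by omega⟩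
    rw [show 2 * (j' + 1) - 1 = 2 * j' + 1 from by omega, show 2 * (j' + 1) = 2 * j' + 1 + 1 from by omega]
    ring
  rw [h2, coeff_add, coeff_X_mul]
  rw [show m' + 1 - 1 = m' from rfl] at h1 ⊢
  linarith

theorem S_eq (hSz : TaskSz) (m j : ℕ) (hj : j ≤ m) :
    S m j * (m.choose j : ℚ) =
      (-1) ^ (m - j) * ((2 * (m - j)).choose (m - j) : ℚ) * ((2 * j).choose j : ℚ) := by
  have h := hSz (m - j) j
  rw [Nat.sub_add_cancel hj, Nat.choose_symm hj] at h
  exact h

theorem ge_even (m j : ℕ) : ge m (2 * j) = (-1) ^ (m + j) * (m.choose j : ℚ) / 4 ^ m := by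
  unfold ge
  rw [if_pos (by omega), show 2 * j / 2 = j from by omega]

theorem ge_odd (m k : ℕ) (hk : k % 2 ≠ 0) : ge m k = 0 := by
  unfold ge
  rw [if_neg hk]

theorem ge_S (hSz : TaskSz) (m j : ℕ) (hj : j ≤ m) : ge m (2 * j) * S m j = c j * c (m - j) := by
  have h := S_eq hSz m j hj
  obtain ⟨i, rfl⟩ : ∃ i, m = j + i := ⟨m - j, by omega⟩
  rw [show j + i - j = i from by omega] at h ⊢
  rw [ge_even]
  unfold c
  have hs : (-1 : ℚ) ^ (j + i + j) * (-1) ^ i = 1 := by
    rw [← pow_add, show j + i + j + i = 2 * (j + i) from by ring, pow_mul]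
    norm_num
  have h4 : (4 : ℚ) ^ (j + i) = 4 ^ j * 4 ^ i := pow_add _ _ _
  have e : (-1) ^ (j + i + j) * ((j + i).choose j : ℚ) / 4 ^ (j + i) * S (j + i) j =
      (-1) ^ (j + i + j) * (S (j + i) j * ((j + i).choose j : ℚ)) / 4 ^ (j + i) := by ring
  rw [e, h, h4]
  have e2 : (-1 : ℚ) ^ (j + i + j) * ((-1) ^ i * ((2 * i).choose i : ℚ) * ((2 * j).choose j : ℚ)) =
      ((-1 : ℚ) ^ (j + i + j) * (-1) ^ i) * (((2 * i).choose i : ℚ) * ((2 * j).choose j : ℚ)) := by
    ring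
  rw [e2, hs]
  field_simp

theorem c_succ (j : ℕ) : ((j : ℚ) + 1) * c (j + 1) = (2 * j + 1) / 2 * c j := by
  unfold c
  have h := Nat.succ_mul_centralBinom_succ j
  unfold Nat.centralBinom at h
  have h' : ((j : ℚ) + 1) * ((2 * (j + 1)).choose (j + 1) : ℚ) =
      2 * (2 * j + 1) * ((2 * j).choose j : ℚ) := by exact_mod_cast h
  rw [pow_succ, mul_div_assoc', h']
  field_simp
  ring

theorem ge_S' (hSz : TaskSz) (m j : ℕ) (hj : j < m) :
    -(ge m (2 * j) * S m (j + 1)) =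
      (2 * j + 1 : ℚ) / (2 * m - 2 * j - 1) * (c j * c (m - j)) := by
  have h := S_eq hSz m (j + 1) hj
  obtain ⟨i, rfl⟩ : ∃ i, m = j + 1 + i := ⟨m - j - 1, by omega⟩
  rw [show j + 1 + i - (j + 1) = i from by omega] at h
  rw [show j + 1 + i - j = i + 1 from by omega]
  rw [ge_even]
  have hch := Nat.choose_succ_right_eq (j + 1 + i) j
  rw [show j + 1 + i - j = i + 1 from by omega] at hch
  have hch' : ((j + 1 + i).choose (j + 1) : ℚ) * (j + 1) = ((j + 1 + i).choose j : ℚ) * (i + 1) := by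
    exact_mod_cast hch
  have c1 := c_succ j
  have c2 := c_succ i
  have hs : (-1 : ℚ) ^ (j + 1 + i + j) * (-1) ^ i = -1 := by
    rw [← pow_add, show j + 1 + i + j + i = 2 * (j + i) + 1 from by ring, pow_succ, pow_mul]
    norm_num
  have h4 : (4 : ℚ) ^ (j + 1 + i) = 4 ^ (j + 1) * 4 ^ i := pow_add _ _ _
  -- the product with `i + 1`
  have key : (-1) ^ (j + 1 + i + j) * ((j + 1 + i).choose j : ℚ) / 4 ^ (j + 1 + i) *
      S (j + 1 + i) (j + 1) * (i + 1) = -((j + 1) * c (j + 1) * c i) := by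
    have e : (-1) ^ (j + 1 + i + j) * ((j + 1 + i).choose j : ℚ) / 4 ^ (j + 1 + i) *
      S (j + 1 + i) (j + 1) * (i + 1) = (-1) ^ (j + 1 + i + j) *
        (((j + 1 + i).choose j : ℚ) * (i + 1)) * S (j + 1 + i) (j + 1) / 4 ^ (j + 1 + i) := by ring
    rw [e, ← hch']
    have e2 : (-1) ^ (j + 1 + i + j) * (((j + 1 + i).choose (j + 1) : ℚ) * (j + 1)) *
        S (j + 1 + i) (j + 1) / 4 ^ (j + 1 + i) = (-1) ^ (j + 1 + i + j) * (j + 1) *
          (S (j + 1 + i) (j + 1) * ((j + 1 + i).choose (j + 1) : ℚ)) / 4 ^ (j + 1 + i) := by ring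
    rw [e2, h, h4]
    unfold c
    have e3 : (-1 : ℚ) ^ (j + 1 + i + j) * (j + 1) *
        ((-1) ^ i * ((2 * i).choose i : ℚ) * ((2 * (j + 1)).choose (j + 1) : ℚ)) =
        ((-1 : ℚ) ^ (j + 1 + i + j) * (-1) ^ i) * ((j + 1) *
          (((2 * i).choose i : ℚ) * ((2 * (j + 1)).choose (j + 1) : ℚ))) := by ring
    rw [e3, hs]
    field_simp
  have hi : ((i : ℚ) + 1) ≠ 0 := by positivity
  have hi2 : (2 * (i : ℚ) + 1) ≠ 0 := by positivity
  apply mul_right_cancel₀ hi
  rw [neg_mul, key, neg_neg, c1]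
  have hden : (2 * ((j + 1 + i : ℕ) : ℚ) - 2 * j - 1) = 2 * i + 1 := by push_cast; ring
  rw [hden]
  have e5 : (2 * (j : ℚ) + 1) / (2 * i + 1) * (c j * c (i + 1)) * (i + 1) =
      (2 * (j : ℚ) + 1) / (2 * i + 1) * c j * ((i + 1) * c (i + 1)) := by ring
  rw [e5, c2]
  field_simp

/-- sums over even indices -/
theorem even_sum (A B : Finset ℕ) (f : ℕ → ℚ) (h0 : ∀ k ∈ A, k % 2 ≠ 0 → f k = 0)
    (hB : ∀ j, j ∈ B ↔ 2 * j ∈ A) : ∑ k ∈ A, f k = ∑ j ∈ B, f (2 * j) := by
  have h1 : ∑ k ∈ B.image (fun j => 2 * j), f k = ∑ j ∈ B, f (2 * j) :=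
    Finset.sum_image (fun x _ y _ h => by
      have : 2 * x = 2 * y := h
      omega)
  rw [← h1]
  symm
  apply Finset.sum_subset
  · intro k hk
    obtain ⟨j, hj, rfl⟩ := Finset.mem_image.1 hk
    exact (hB j).1 hj
  · intro k hk hk2
    apply h0 k hk
    intro he
    apply hk2
    refine Finset.mem_image.2 ⟨k / 2, ?_, by omega⟩
    rw [hB, show 2 * (k / 2) = k from by omega]
    exact hk

end VEaux

open VEaux Polynomial Finset Pool.Agent.Helper848.AztecDet in
theorem taskVE : TaskSz → TaskVE := by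
  intro hSz m hm
  refine ⟨?_, ?_, ?_, ?_⟩
  · unfold G
    rw [if_neg (by omega), show m + 1 - m = 1 from by omega, pow_one, neg_one_mul, coeff_neg,
      finsetSum_coeff, even_sum _ ((range (m + 1)).filter (fun j => 2 * j < m)), Finset.mul_sum,
      ← Finset.sum_neg_distrib]
    · refine Finset.sum_congr rfl fun j hj => ?_
      rw [Finset.mem_filter] at hj
      have hjm : j < m := by omega
      have h1 := keyEven m (j + 1) (by omega) (by omega)
      rw [show 2 * (j + 1) - 1 = 2 * j + 1 from by omega,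
        show 2 * m - 2 * (j + 1) = 2 * m - 1 - 2 * j - 1 from by omega] at h1
      rw [coeff_C_mul, h1, ← ge_S' hSz m j hjm]
      ring
    · intro k _ hk2
      rw [ge_odd m k hk2, C_0, zero_mul, coeff_zero]
    · intro j
      simp only [Finset.mem_filter, Finset.mem_range]
      omega
  · unfold G
    rw [if_neg (by omega), Nat.sub_self, pow_zero, one_mul,
      finsetSum_coeff, even_sum _ ((range (m + 1)).filter (fun j => 2 * j < m)), Finset.mul_sum]
    · refine Finset.sum_congr rfl fun j hj => ?_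
      rw [Finset.mem_filter] at hj
      have hjm : j < m := by omega
      have h1 := keyOdd m j hjm
      rw [coeff_C_mul, Nat.add_zero, Nat.sub_zero, h1, ← ge_S hSz m j hjm.le]
      ring
    · intro k _ hk2
      rw [ge_odd m k hk2, C_0, zero_mul, coeff_zero]
    · intro j
      simp only [Finset.mem_filter, Finset.mem_range]
      omega
  · unfold G
    rw [if_neg (by omega), Nat.sub_self, pow_zero, one_mul,
      finsetSum_coeff, even_sum _ ((range (m + 1)).filter (fun j => 2 * j ≤ m)), Finset.mul_sum]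
    · refine Finset.sum_congr rfl fun j hj => ?_
      rw [Finset.mem_filter] at hj
      have hjm : j < m := by omega
      have h1 := keyOdd m j hjm
      rw [coeff_C_mul, Nat.add_zero, Nat.sub_zero, h1, ← ge_S hSz m j hjm.le]
      ring
    · intro k _ hk2
      rw [ge_odd m k hk2, C_0, zero_mul, coeff_zero]
    · intro j
      simp only [Finset.mem_filter, Finset.mem_range]
      omega
  · unfold G
    rw [if_pos (by omega), show m + 1 - 1 - m = 0 from by omega, pow_zero, one_mul,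
      finsetSum_coeff, even_sum _ ((range (m + 1)).filter (fun j => m < 2 * j)), Finset.mul_sum]
    · refine Finset.sum_congr rfl fun j hj => ?_
      rw [Finset.mem_filter, Finset.mem_range] at hj
      have hjm : j ≤ m := by omega
      have h1 := keyEven m j (by omega) hjm
      rw [coeff_C_mul, show 2 * j + m - (m + 1) = 2 * j - 1 from by omega,
        show 2 * m + (m + 1) - 1 - m - 2 * j = 2 * m - 2 * j from by omega, h1,
        ← ge_S hSz m j hjm]
      ring
    · intro k _ hk2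
      rw [ge_odd m k hk2, C_0, zero_mul, coeff_zero]
    · intro j
      simp only [Finset.mem_filter, Finset.mem_range, Finset.mem_Ico]
      omega

end H958R6
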